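import Pool.Agent.Lib.Pa7c826g.Easy
import Pool.Agent.Lib.Pa7c826w.Det

/-!
The complexity of approximating the number of independent sets of bipartite graphs with a gap
between the degrees of the two sides: the exact threshold of the gap.
-/

namespace Pool.Agent.Results.MP_a7c826_lc.DegreeGap

open Pool.Agent.Lib.Pa7c826
open Pool.Agent.Lib.Pa7c826g
open Pool.Agent.Lib

/-- Let `0 ≤ δ < 1`. On bipartite graphs on `n` vertices such that for some `D ≥ n ^ δ` all degrees
on one side are at most `D` and all degrees on the other side are at least `D + γ log₂ n`: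

1. if `γ > 1 - δ`, there is an FPTAS for the number of independent sets;
2. if `γ < 1 - δ` and `γ < 1/2`, there is an FPRAS (FPTAS) iff there is one for all bipartite
graphs. -/
theorem result (δ γ : ℝ) (h0 : 0 ≤ δ) (h1 : δ < 1) :
    (1 - δ < γ → HasFPTAS (DegreeGap δ γ)) ∧
    (γ < 1 - δ → γ < 1 / 2 →
      (HasFPRAS (DegreeGap δ γ) ↔ HasFPRAS (fun _ => True)) ∧
      (HasFPTAS (DegreeGap δ γ) ↔ HasFPTAS (fun _ => True))) :=
  ⟨easy_gap h0 h1, fun h2 h3 => ⟨hard_gap h0 h1 h2 h3, Pa7c826w.hard_gapD h0 h1 h2 h3⟩⟩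

end Pool.Agent.Results.MP_a7c826_lc.DegreeGap
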