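import Pool.Agent.Lib.Spars.Main

/-!
Every bipartite graph has a spanning subgraph of bounded degree with almost the same number of
independent sets.
-/

namespace Pool.Agent.Results.MP_a7c826_lc.DegreeSparsifiers

open Pool.Agent.Lib.Pa7c826

/-- For some constant `K` and every `q ≥ 1`: every bipartite graph `G` has a spanning subgraph `H`
of maximum degree at most `K q ^ 32` with `i(G) ≤ i(H) ≤ 2 ^ (n / q) i(G)`, where `n` is the number
of vertices and `i` the number of independent sets. -/
theorem result :
    ∃ K : ℕ, ∀ q : ℕ, 1 ≤ q → ∀ (V : Type) [Fintype V] (G : SimpleGraph V), G.IsBipartite →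
      ∃ H : SimpleGraph V, H ≤ G ∧ (∀ v, (H.neighborSet v).ncard ≤ K * q ^ 32) ∧
        numIndep G ≤ numIndep H ∧
        (numIndep H : ℝ) ≤ 2 ^ ((Fintype.card V : ℝ) / q) * numIndep G :=
  Spars.main

end Pool.Agent.Results.MP_a7c826_lc.DegreeSparsifiers
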