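import Pool.Agent.Lib.Pa7c826r.ClassLR

/-!
The complexity of approximating the number of independent sets of bipartite graphs under conditions
on the degrees: graphs with a regular (almost regular) spanning subgraph, regular graphs, graphs of
large minimum degree.
-/

namespace Pool.Agent.Results.MP_a7c826_lc.DegreeThresholds

open Filter
open Pool.Agent.Lib.Pa7c826
open Pool.Agent.Lib.Pa7c826r
open Pool.Agent.Lib.Pa7c826w
open Pool.Agent.Lib

/-- Regular bipartite graphs of some degree `d` with `n ≤ d g(n)` vertices. -/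
def RegularWithin (g : ℕ → ℕ) (G : BGraph) : Prop :=
  ∃ d, (∀ i, G.rowDeg i = d) ∧ (∀ j, G.colDeg j = d) ∧ G.a + G.b ≤ d * g (G.a + G.b)

/-- number of edges -/
def numEdges (G : BGraph) : ℕ := ∑ i, G.rowDeg i

/-- Bipartite graphs with `n` vertices and at most `g(n) / 12 - 1` edges. -/
def FewEdges (g : ℕ → ℕ) (G : BGraph) : Prop := 12 * (numEdges G + 1) ≤ g (G.a + G.b)

/-- 1. For every `C` there is a deterministic FPTAS for the number of independent sets on
`RegularFactor C` and `AlmostRegularFactor C`.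

2. For every nondecreasing `g`, an FPRAS (FPTAS) on the `d`-regular bipartite graphs with
`n ≤ d g(n)` vertices gives an FPRAS (FPTAS) on all bipartite graphs with `n` vertices and at most
`g(n) / 12 - 1` edges.

3. Let `x, y > 0`. For the balanced bipartite graphs with `N` vertices per side, left degrees at
least `x N - w N` and right degrees at least `y N - w N` there is an FPTAS with `w N = c log N` if
`x + y ≥ 1`; if `x + y < 1`, then already for `w = 0` there is an FPRAS (FPTAS) if and only if there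
is one on all bipartite graphs.

4. For rational `0 < x < 1` and `y = 1 - x` this is sharp: for some `c > 0` and all nondecreasing `w`
with `w N ≥ log₂ N` for large `N`, an FPRAS (FPTAS) on the class of 3. gives one on the bipartite
graphs with `M` vertices of which at most `c w M` are not isolated; for `w N = N ^ ε`, `ε > 0`, there
is an FPRAS (FPTAS) on the class of 3. if and only if there is one on all bipartite graphs. -/
theorem result :
    (∀ C : ℕ, HasFPTAS (RegularFactor C) ∧ HasFPTAS (AlmostRegularFactor C)) ∧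
    (∀ g : ℕ → ℕ, Monotone g →
      (HasFPRAS (RegularWithin g) → HasFPRAS (FewEdges g)) ∧
      (HasFPTAS (RegularWithin g) → HasFPTAS (FewEdges g))) ∧
    (∀ x y : ℝ, 0 < x → 0 < y →
      (1 ≤ x + y → ∀ c : ℝ, HasFPTAS (MinDegree x y fun N => c * Real.log N)) ∧
      (x + y < 1 →
        (HasFPRAS (MinDegree x y fun _ => 0) ↔ HasFPRAS fun _ => True) ∧
        (HasFPTAS (MinDegree x y fun _ => 0) ↔ HasFPTAS fun _ => True))) ∧
    (∀ x : ℚ, 0 < x → x < 1 →
      (∃ c : ℝ, 0 < c ∧ ∀ w : ℕ → ℝ, Monotone w → (∀ᶠ N : ℕ in atTop, Real.logb 2 N ≤ w N) →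
        (HasFPRAS (MinDegree x (1 - x) w) → HasFPRAS (SmallCore fun M => c * w M)) ∧
        (HasFPTAS (MinDegree x (1 - x) w) → HasFPTAS (SmallCore fun M => c * w M))) ∧
      ∀ ε : ℝ, 0 < ε →
        (HasFPRAS (MinDegree x (1 - x) fun N => (N : ℝ) ^ ε) ↔ HasFPRAS fun _ => True) ∧
        (HasFPTAS (MinDegree x (1 - x) fun N => (N : ℝ) ^ ε) ↔ HasFPTAS fun _ => True)) := by
  have hE : ∀ g : ℕ → ℕ, FewEdges g = fun G => 12 * (Pa7c826.ecount G + 1) ≤
      g (G.a + G.b) := by
    intro g
    funext G
    unfold FewEdges numEdges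
    rw [Pa7c826t.ecount_eq]
  have hall : ∀ C : BGraph → Prop, HasFPRAS (fun _ => True) → HasFPRAS C :=
    fun C => HasFPRAS.mono fun _ _ => trivial
  have hall' : ∀ C : BGraph → Prop, HasFPTAS (fun _ => True) → HasFPTAS C :=
    fun C => Pa7c826t.HasFPTAS.mono fun _ _ => trivial
  refine ⟨fun C => ⟨regularFactor_easy C, almostRegularFactor_easy C⟩,
    fun g hg => ⟨fun h => ?_, fun h => ?_⟩,
    fun x y hx hy => ⟨easy_LR hx hy, fun h =>
      ⟨⟨(hard_LR_below hx hy h).1, hall _⟩, ⟨(hard_LR_below hx hy h).2, hall' _⟩⟩⟩,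
    fun x hx0 hx1 => ⟨?_, ?_⟩⟩
  · rw [hE]
    exact Pa7c826t.hard hg h
  · rw [hE]
    exact Pa7c826t.hardD hg h
  · refine ⟨1 / 2, by norm_num, fun w hw hl => ?_⟩
    have h := (hard_LR_rat x hx0 hx1).1 w hw hl
    have e : (fun M => w M / 2) = fun M => 1 / 2 * w M := by
      funext M
      ring
    rw [e] at h
    exact h
  · intro ε hε
    have h := (hard_LR_rat x hx0 hx1).2 ε hε
    exact ⟨⟨h.1, hall _⟩, ⟨h.2, hall' _⟩⟩

end Pool.Agent.Results.MP_a7c826_lc.DegreeThresholds
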