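import Pool.Agent.Lib.Pa7c826k.Fin
import Pool.Agent.Lib.Pa7c826q.SRed

/-!
The expansion threshold for approximately counting the independent sets of regular bipartite
graphs of degree `d` has order `log d / d`.
-/

namespace Pool.Agent.Results.MP_a7c826_lc.ExpansionThreshold

open Pool.Agent.Lib.Pa7c826

/-- Bipartite graphs that are `d`-regular `α`-expanders for some `d` and `α` with
`α ≥ C (log₂ d + 1) / d`. -/
def StrongExpander (C : ℕ) (G : BGraph) : Prop :=
  ∃ (d : ℕ) (α : ℝ), (∀ i, G.rowDeg i = d) ∧ (∀ j, G.colDeg j = d) ∧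
    Pool.Agent.Lib.Pa7c826x.IsExpander α G ∧ C * ((Nat.log 2 d : ℝ) + 1) ≤ α * d

/-- Bipartite graphs with `n` vertices that are `d`-regular `α`-expanders for `d = n ^ (p / q)` and
some `α` with `α ≥ min (log₂ d) (log₂ (n / d)) / (30 d)`. -/
def LogExpander (p q : ℕ) (G : BGraph) : Prop :=
  ∃ (d : ℕ) (α : ℝ), (∀ i, G.rowDeg i = d) ∧ (∀ j, G.colDeg j = d) ∧ d ^ q = (G.a + G.b) ^ p ∧
    Pool.Agent.Lib.Pa7c826x.IsExpander α G ∧
    ((min (Nat.log 2 d) (Nat.log 2 ((G.a + G.b) / d)) : ℕ) : ℝ) ≤ 30 * (α * d)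

/-- (1) For some constant `C` there is one deterministic FPTAS on all `d`-regular bipartite
`α`-expanders with `α d ≥ C (log₂ d + 1)`, of every degree `d`.
(2) For `0 < p < q`, an FPRAS (FPTAS) on the `d`-regular bipartite `α`-expanders with `n` vertices,
`d = n ^ (p / q)` and `30 α d ≥ min (log₂ d) (log₂ (n / d))` gives one on all bipartite graphs. -/
theorem result :
    (∃ C : ℕ, HasFPTAS (StrongExpander C)) ∧
    (∀ p q : ℕ, 0 < p → p < q →
      (HasFPRAS (LogExpander p q) ↔ HasFPRAS (fun _ => True)) ∧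
      (HasFPTAS (LogExpander p q) ↔ HasFPTAS (fun _ => True))) :=
  ⟨⟨10000000, Pool.Agent.Lib.Pa7c826k.expK_fptas⟩,
    fun _ _ hp hpq => Pool.Agent.Lib.Pa7c826q.logExpander_iff hp hpq⟩

end Pool.Agent.Results.MP_a7c826_lc.ExpansionThreshold
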