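import Pool.Agent.Lib.Pa7c826y.Final

/-!
Problem MP_a7c826_lc: the exact amount of irregularity at which approximate counting of
independent sets in almost regular bipartite expanders becomes as hard as for all bipartite
graphs.

The definitions `BGraph`, `inCode`, `outVal`, `Good`, `HasFPTAS`, `HasFPRAS` are in
`Pool/Agent/Lib/Pa7c826/Scheme.lean`, the definitions `nbR`, `nbL`, `IsExpander` in
`Pool/Agent/Lib/Pa7c826x/Defs.lean`, and `AlmostRegularExpander` is in
`Pool/Agent/Lib/Pa7c826y/Defs.lean`.
-/

open Pool.Agent.Lib.Pa7c826 Pool.Agent.Lib.Pa7c826x Pool.Agent.Lib.Pa7c826y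

namespace Pool.Agent.Results.MP_a7c826_lc.IrregularityThreshold

/-- The critical irregularity `κ α / (1 - κ α / 2)` with `κ = log (4 / 3) / log (3 / 2)`. -/
noncomputable def critical (α : ℝ) : ℝ :=
  Real.log (4 / 3) / Real.log (3 / 2) * α / (1 - Real.log (4 / 3) / Real.log (3 / 2) * α / 2)

/-- **Result.** Consider balanced bipartite `α`-expanders all of whose degrees lie in
`[δ, (1 + γ) δ]`. Below the critical irregularity (and for `0 < α ≤ 1 / 150`) there is a `C` such
that counting independent sets has a deterministic fully polynomial approximation scheme if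
`δ ≥ C log N`. Above it (and for `0 < α ≤ 2 / 3`), even for `δ ≥ N / 3`, a randomised scheme
exists if and only if one exists for all bipartite graphs. -/
theorem result (α γ : ℝ) (hα : 0 < α) (hγ : 0 ≤ γ) :
    (α ≤ 1 / 150 → γ < critical α →
      ∃ C : ℝ, HasFPTAS (AlmostRegularExpander α γ fun N => C * Real.log N)) ∧
    (α ≤ 2 / 3 → critical α < γ →
      (HasFPRAS (AlmostRegularExpander α γ fun N => (N : ℝ) / 3) ↔ HasFPRAS fun _ => True)) :=
  ⟨fun h h1 => (threshold hα h hγ).1 h1,
    fun h h1 => hard_main hα h (((thrG_facts hα h γ).2).1 h1)⟩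

end Pool.Agent.Results.MP_a7c826_lc.IrregularityThreshold
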