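import Pool.Agent.Lib.SubBisL.BSAll
import Pool.Agent.Lib.SubBisL.SharpFix

/-!
Problem MP_a7c826_lc: the number of independent sets of a sparse bipartite graph is, to within a
factor `2 ^ (ε n)`, a local quantity; it can be estimated from a constant number of random vertices
and the balls of constant radius around them. The same at every activity.

The definitions `ball`, `root`, `SameBall`, `RootFun`, `RootFun.Invariant`, `RootFun.at`, `ZZ`,
`DegLe` are in `Pool/Agent/Lib/SubBisL/Defs.lean`, the definitions `freq`, `high`, `Tight`,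
`FreqConv` in `Pool/Agent/Lib/SubBisL/Freq.lean`.
-/

open Pool.Agent.Lib.SubBisL

namespace Pool.Agent.Results.MP_a7c826_lc.Locality

open Classical Filter Topology in
/-- **Result.**

1. For all `D`, `λ > 0`, `0 < ε ≤ 1` there are a radius
   `r ≤ 81 (D + 1) (log₂ (1/ε) + |log₂ λ| + 5) / ε` and an isomorphism invariant function `φ` of
   rooted graphs, bounded by `C = (D + 3) (log₂ (1/ε) + |log₂ λ| + 5)`, such that, for every finite
   bipartite graph `G` with `n ≥ 1` vertices, `log₂ Z_G(λ)` is the sum of the values of `φ` at the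
   balls of radius `r`, up to `ε n + log₂ (1 + λ) h`, where `h` is the number of the vertices of
   degree more than `D`; and the mean of the values of `φ` at the balls around `K` random vertices
   is `(log₂ Z_G(λ)) / n` up to `2 ε + log₂ (1 + λ) h / n` with probability at least `1 - δ`, if
   `K ≥ C ^ 2 / (ε ^ 2 δ)`.
2. Along every locally (Benjamini-Schramm) convergent, tight sequence of finite bipartite graphs
   the free energy per vertex `(log₂ Z(λ)) / n` converges, for every `λ > 0`.
3. The radius is optimal up to `log₂ (1/ε) ^ 2`: for every `λ > 0` there are `D` and `c > 0` such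
   that, for `0 < ε ≤ c` and `r ≤ c / (ε log₂ (1/ε))`, there are arbitrarily large bipartite graphs
   `G`, `G'` of maximum degree at most `D`, with `n` vertices each, and a bijection of their
   vertices with isomorphic balls of radius `r`, such that
   `log₂ Z_G(λ) - log₂ Z_G'(λ) > 2 ε n`. -/
theorem result :
    (∀ (D : ℕ) (lam eps : ℝ), 0 < lam → 0 < eps → eps ≤ 1 →
      ∃ (r : ℕ) (φ : RootFun),
        (r : ℝ) ≤ 81 * (D + 1) * (Real.logb 2 (1 / eps) + |Real.logb 2 lam| + 5) / eps ∧
        φ.Invariant ∧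
        (∀ (W : Type) (H : SimpleGraph W) (o : W),
          |φ W H o| ≤ (D + 3) * (Real.logb 2 (1 / eps) + |Real.logb 2 lam| + 5)) ∧
        ∀ (V : Type) [Fintype V] [Nonempty V] (G : SimpleGraph V), G.Colorable 2 →
          |Real.logb 2 (ZZ G lam) - ∑ v, φ.at G r v| ≤
            eps * Fintype.card V + Real.logb 2 (1 + lam) * high G D ∧
          ∀ (K : ℕ) (delta : ℝ), 1 ≤ K →
            ((D + 3) * (Real.logb 2 (1 / eps) + |Real.logb 2 lam| + 5)) ^ 2
              ≤ K * eps ^ 2 * delta →
            ((Finset.univ.filter (fun s : Fin K → V =>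
                2 * eps + Real.logb 2 (1 + lam) * high G D / Fintype.card V <
                |(∑ i, φ.at G r (s i)) / K - Real.logb 2 (ZZ G lam) / Fintype.card V|)).card : ℝ)
              ≤ delta * (Fintype.card V : ℝ) ^ K) ∧
    (∀ lam : ℝ, 0 < lam → ∀ (V : ℕ → Type) [∀ n, Fintype (V n)] [∀ n, Nonempty (V n)]
      (G : ∀ n, SimpleGraph (V n)), (∀ n, (G n).Colorable 2) → Tight V G → FreqConv V G →
      ∃ L : ℝ, Tendsto (fun n => Real.logb 2 (ZZ (G n) lam) / Fintype.card (V n)) atTop (𝓝 L)) ∧
    (∀ lam : ℝ, 0 < lam → ∃ (D : ℕ) (c : ℝ), 0 < c ∧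
      ∀ eps : ℝ, 0 < eps → eps ≤ c → ∀ r : ℕ, (r : ℝ) ≤ c / (eps * Real.logb 2 (1 / eps)) →
        ∀ N : ℕ, ∃ (V V' : Type) (_ : Fintype V) (_ : Fintype V') (G : SimpleGraph V)
          (G' : SimpleGraph V') (e : V' ≃ V), G.Colorable 2 ∧ G'.Colorable 2 ∧ DegLe G D ∧
          DegLe G' D ∧ N ≤ Fintype.card V ∧ (∀ v, SameBall G' v G (e v) r) ∧
          2 * (eps * Fintype.card V) < Real.logb 2 (ZZ G lam) - Real.logb 2 (ZZ G' lam)) :=
  ⟨fun D _ _ hlam heps heps1 => local_sampling_all D hlam heps heps1,
    fun _ hlam V _ _ G hcol ht hconv => bs_convergence_all hlam V G hcol ht hconv,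
    fun lam hlam => SharpFix.pair_fixed lam hlam⟩

end Pool.Agent.Results.MP_a7c826_lc.Locality
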