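import Pool.Agent.Lib.SubBisG.MinY

/-!
Problem MP_a7c826_lc: approximate counting of independent sets of regular and almost regular
bipartite graphs with `n` vertices and degree `d`, in a time that depends on `n / d`.

The definitions `BGraph`, `inCode`, `Good` are in `Pool/Agent/Lib/Pa7c826/Indep.lean` and
`Pool/Agent/Lib/Pa7c826/Scheme.lean`, `padCode` in `Pool/Agent/Lib/SubBisX/LogDefs.lean`,
`HasRTimeP` in `Pool/Agent/Lib/SubBisG/FinDefs.lean`, `SubDeg` in
`Pool/Agent/Lib/SubBisG/FinDefsH.lean`.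
-/

open Pool.Agent.Lib.Pa7c826 Pool.Agent.Lib.SubBisG Finset

namespace Pool.Agent.Results.MP_a7c826_lc.RegularGraphsDeficient

/-- The exponent of the time: the minimum of `y` and `y ^ (1 / 3) (log₂ (n + 1)) ^ (5 / 3)`. -/
noncomputable def expo (n : ℕ) (y : ℝ) : ℝ :=
  min y (y ^ (1 / 3 : ℝ) * Real.logb 2 ((n : ℝ) + 1) ^ (5 / 3 : ℝ))

/-- **Result.** For some constant `C` the number of independent sets is approximated within a factor
`1 ± 1 / t`, with probability at least `3 / 4`, in time polynomial in `n`, `t` and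
`2 ^ (C expo n ((1 + r) n / d))`, on all bipartite graphs with `n` vertices that have a subgraph in
which all degrees are at most `d` and the degrees of the left vertices are at least `d - r`,
`1 ≤ d ≤ ` the number of left vertices; in particular (`r = 0`) in time polynomial in `n`, `t` and
`2 ^ (C expo n (n / d))` on all `d`-regular bipartite graphs. -/
theorem result : ∃ C : ℕ, HasRTimeP fun (G : BGraph) (s : ℕ) =>
    ∃ (d r : ℕ) (H : Fin G.a → Fin G.b → Bool), 1 ≤ d ∧ d ≤ G.a ∧ SubDeg G d H ∧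
      (∀ i, d ≤ (univ.filter fun j => H i j = true).card + r) ∧
      (2 : ℝ) ^ (C * expo (G.a + G.b) ((1 + r) * (G.a + G.b : ℕ) / d)) ≤ s := by
  obtain ⟨C, hC⟩ := hasRTimeP_min
  refine ⟨C, ?_⟩
  have e : PMin 5 C = fun (G : BGraph) (s : ℕ) =>
      ∃ (d r : ℕ) (H : Fin G.a → Fin G.b → Bool), 1 ≤ d ∧ d ≤ G.a ∧ SubDeg G d H ∧
        (∀ i, d ≤ (univ.filter fun j => H i j = true).card + r) ∧
        (2 : ℝ) ^ (C * expo (G.a + G.b) ((1 + r) * (G.a + G.b : ℕ) / d)) ≤ s := by
    funext G s
    simp only [PMin, expo, Nat.cast_ofNat]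
  rw [← e]
  exact hC

end Pool.Agent.Results.MP_a7c826_lc.RegularGraphsDeficient
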