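import Pool.Agent.Lib.Pa7c826f.SFinal

/-!
Approximate counting of independent sets in randomly perturbed bipartite graphs: the exact
threshold of the noise.
-/

namespace Pool.Agent.Results.MP_a7c826_lc.SmoothedThreshold

open Pool.Agent.Lib.Pa7c826 Pool.Agent.Lib.Pa7c826f

theorem result (c : ℝ) (p q : ℕ → ℝ) :
    (2 < c → (∃ N₁ : ℕ, ∀ N ≥ N₁, c * Real.log N / N ≤ p N ∧ 0 ≤ q N ∧ p N + q N ≤ 1) →
      SmoothedFPTAS p q) ∧
    (c < 2 → (∃ N₁ : ℕ, ∀ N ≥ N₁, 0 ≤ q N ∧ q N ≤ p N ∧ p N ≤ c * Real.log N / N) →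
      (SmoothedFPRAS p q ↔ HasFPRAS (fun _ => True))) :=
  threshold c p q

end Pool.Agent.Results.MP_a7c826_lc.SmoothedThreshold
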